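import Pool.Agent.Y994.KW.Stm

/-!
# Tail of the composition error (helper941)
-/

set_option autoImplicit false

namespace Pool.Agent.Y941.KW

open Y994.KW Finset

/-- the property `T1` depends on the rows of the slab -/
def S_T1LOC : Prop := ∀ (n : ℕ) (u v h : ℤ) (σ σ' : Cfg),
  (∀ j t : ℤ, u ≤ t → t < v → σ' j (t + h) = σ j t) → T1 n σ u v → T1 n σ' (u + h) (v + h)

/-! ### Probabilities -/

section prob

variable {n M : ℕ}

open Classical in
theorem pr_eq0 (A : (Fin M → Fin (2 * n + 1) → Bool) → Prop) :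
    pr n M A = ((univ.filter A).card : ℝ) / 2 ^ ((2 * n + 1) * M) := by
  unfold pr H906K.Ex
  rw [Finset.sum_boole]

theorem pr_eq (A : (Fin M → Fin (2 * n + 1) → Bool) → Prop) [DecidablePred A] :
    pr n M A = ((univ.filter A).card : ℝ) / 2 ^ ((2 * n + 1) * M) := by
  rw [pr_eq0]
  have h1 : (@Finset.filter _ A (fun c => Classical.propDecidable (A c)) univ) =
      univ.filter A := by
    ext c
    simp
  rw [h1]

theorem pr_mono {A B : (Fin M → Fin (2 * n + 1) → Bool) → Prop} (h : ∀ c, A c → B c) :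
    pr n M A ≤ pr n M B := by
  classical
  rw [pr_eq, pr_eq]
  apply div_le_div_of_nonneg_right _ (by positivity)
  exact_mod_cast Finset.card_le_card fun c hc => by
    rw [Finset.mem_filter] at hc ⊢
    exact ⟨hc.1, h c hc.2⟩

theorem pr_or (A B : (Fin M → Fin (2 * n + 1) → Bool) → Prop) :
    pr n M (fun c => A c ∨ B c) ≤ pr n M A + pr n M B := by
  classical
  rw [pr_eq, pr_eq, pr_eq, ← add_div]
  apply div_le_div_of_nonneg_right _ (by positivity)
  rw [← Nat.cast_add]
  rw [Nat.cast_le]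
  refine le_trans (Finset.card_le_card fun c hc => ?_) (Finset.card_union_le _ _)
  rw [Finset.mem_filter] at hc
  rw [Finset.mem_union, Finset.mem_filter, Finset.mem_filter]
  rcases hc.2 with h | h
  · exact Or.inl ⟨hc.1, h⟩
  · exact Or.inr ⟨hc.1, h⟩

theorem pr_nonneg (A : (Fin M → Fin (2 * n + 1) → Bool) → Prop) : 0 ≤ pr n M A := by
  classical
  rw [pr_eq]
  positivity

theorem card_cfg : (Fintype.card (Fin M → Fin (2 * n + 1) → Bool) : ℝ) =
    2 ^ ((2 * n + 1) * M) := by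
  rw [Fintype.card_fun, Fintype.card_fun, Fintype.card_bool, Fintype.card_fin, Fintype.card_fin,
    ← pow_mul]
  push_cast
  rfl

theorem pr_not (A : (Fin M → Fin (2 * n + 1) → Bool) → Prop) :
    pr n M (fun c => ¬ A c) = 1 - pr n M A := by
  classical
  have h := Finset.card_filter_add_card_filter_not (s := univ) A
  rw [Finset.card_univ] at h
  rw [pr_eq, pr_eq]
  have h' : ((univ.filter A).card : ℝ) + ((univ.filter fun c => ¬ A c).card : ℝ) =
      2 ^ ((2 * n + 1) * M) := by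
    rw [← card_cfg]
    exact_mod_cast h
  have h2 : (0 : ℝ) < 2 ^ ((2 * n + 1) * M) := by positivity
  rw [eq_sub_iff_add_eq, ← add_div, add_comm, h', div_self h2.ne']

theorem pr_le_one (A : (Fin M → Fin (2 * n + 1) → Bool) → Prop) : pr n M A ≤ 1 := by
  have h1 := pr_not A
  have h2 := pr_nonneg (n := n) (M := M) fun c => ¬ A c
  linarith

end prob

/-! ### Blocks of rows -/

section blocks

variable {β : Type} {W N m : ℕ}

theorem blk_lt (u : ℕ) (h : u + m * N ≤ W) (i : Fin m) (t : Fin N) : u + i * N + t < W := by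
  have h1 := Nat.mul_le_mul_right N (Nat.succ_le_of_lt i.2)
  rw [Nat.succ_mul] at h1
  have := t.2
  omega

/-- the block number `i` -/
def blk (u : ℕ) (h : u + m * N ≤ W) (c : Fin W → β) (i : Fin m) : Fin N → β :=
  fun t => c ⟨u + i * N + t, blk_lt u h i t⟩

/-- the other rows -/
def oth (u : ℕ) (h : u + m * N ≤ W) (c : Fin W → β) : Fin (W - m * N) → β :=
  fun j => if hj : (j : ℕ) < u then c ⟨j, by omega⟩ else c ⟨j + m * N, by omega⟩

theorem blk_inj (u : ℕ) (h : u + m * N ≤ W) (hN : 0 < N) (c c' : Fin W → β)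
    (h1 : blk u h c = blk u h c') (h2 : oth u h c = oth u h c') : c = c' := by
  funext k
  obtain ⟨k, hk⟩ := k
  rcases Nat.lt_or_ge k u with h3 | h3
  · have h4 := congrFun h2 ⟨k, by omega⟩
    unfold oth at h4
    simpa only [dif_pos h3] using h4
  · rcases Nat.lt_or_ge k (u + m * N) with h5 | h5
    · have h6 : (k - u) / N < m := Nat.div_lt_of_lt_mul (by rw [Nat.mul_comm]; omega)
      have h7 : (k - u) % N < N := Nat.mod_lt _ hN
      have h8 := congrFun (congrFun h1 ⟨(k - u) / N, h6⟩) ⟨(k - u) % N, h7⟩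
      unfold blk at h8
      have h9 : u + (k - u) / N * N + (k - u) % N = k := by
        have := Nat.div_add_mod' (k - u) N
        omega
      simp only [h9] at h8
      exact h8
    · have h4 := congrFun h2 ⟨k - m * N, by omega⟩
      unfold oth at h4
      have h6 : ¬ (k - m * N < u) := by omega
      have h7 : k - m * N + m * N = k := by omega
      simp only [dif_neg h6, h7] at h4
      exact h4

theorem blocks [Fintype β] (u : ℕ) (h : u + m * N ≤ W) (hN : 0 < N) (A : (Fin N → β) → Prop)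
    [DecidablePred A] [DecidablePred fun c : Fin W → β => ∀ i : Fin m, A (blk u h c i)] :
    (univ.filter fun c : Fin W → β => ∀ i : Fin m, A (blk u h c i)).card ≤
      (univ.filter A).card ^ m * Fintype.card β ^ (W - m * N) := by
  have h1 : ((Fintype.piFinset fun _ : Fin m => univ.filter A) ×ˢ
      (univ : Finset (Fin (W - m * N) → β))).card =
      (univ.filter A).card ^ m * Fintype.card β ^ (W - m * N) := by
    rw [Finset.card_product, Fintype.card_piFinset]
    simp
  rw [← h1]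
  refine Finset.card_le_card_of_injOn (fun c => (blk u h c, oth u h c)) ?_ ?_
  · intro c hc
    rw [Finset.mem_coe, Finset.mem_filter] at hc
    rw [Finset.mem_coe, Finset.mem_product]
    refine ⟨?_, Finset.mem_univ _⟩
    rw [Fintype.mem_piFinset]
    intro i
    rw [Finset.mem_filter]
    exact ⟨Finset.mem_univ _, hc.2 i⟩
  · intro c _ c' _ hcc
    exact blk_inj u h hN c c' (congrArg Prod.fst hcc) (congrArg Prod.snd hcc)

end blocks

/-! ### Configurations -/

theorem cfg_shift (n W N z : ℕ) (ω : Fin W → Fin (2 * n + 1) → Bool)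
    (ω' : Fin N → Fin (2 * n + 1) → Bool) (hz : z + N ≤ W)
    (hω : ∀ t : Fin N, ω' t = ω ⟨z + t, by omega⟩) (j t : ℤ) (h0 : 0 ≤ t) (h1 : t < N) :
    cfg n W ω j (t + z) = cfg n N ω' j t := by
  unfold cfg
  rw [dif_pos (by omega), dif_pos ⟨h0, h1⟩, hω]
  have h2 : (t + z).toNat = z + t.toNat := by omega
  simp only [h2]

theorem per_cfg (n W : ℕ) (ω : Fin W → Fin (2 * n + 1) → Bool) : Per n (cfg n W ω) := by
  intro j t
  have h : H906K.jx (2 * n) (j + (2 * n + 1)) = H906K.jx (2 * n) j := by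
    unfold H906K.jx
    apply Fin.ext
    simp only
    congr 1
    push_cast
    simp
  unfold cfg
  rw [h]

/-- long stretches without a slab crossed by one strand are unlikely -/
theorem bad (hT : S_T1LOC) {c : ℝ}
    (hc : ∀ n : ℕ, 1 ≤ n →
      c ≤ pr n (2 * n + 1) (fun ω => T1 n (cfg n (2 * n + 1) ω) 0 (2 * n + 1)))
    (n W m u : ℕ) (hn : 1 ≤ n) (h : u + m * (2 * n + 1) ≤ W) :
    pr n W (fun ω => ∀ i : Fin m, ¬ T1 n (cfg n W ω) (((u + i * (2 * n + 1) : ℕ)) : ℤ)
      (((u + i * (2 * n + 1) : ℕ) : ℤ) + (2 * n + 1))) ≤ (1 - c) ^ m := by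
  classical
  set A : (Fin (2 * n + 1) → Fin (2 * n + 1) → Bool) → Prop :=
    fun ω => ¬ T1 n (cfg n (2 * n + 1) ω) 0 (2 * n + 1) with hA
  have h1 : pr n W (fun ω => ∀ i : Fin m, ¬ T1 n (cfg n W ω) (((u + i * (2 * n + 1) : ℕ)) : ℤ)
      (((u + i * (2 * n + 1) : ℕ) : ℤ) + (2 * n + 1))) ≤
      pr n W (fun ω => ∀ i : Fin m, A (blk u h ω i)) := by
    apply pr_mono
    intro ω hω i hi
    apply hω i
    have h2 := hT n 0 (2 * n + 1) ((u + i * (2 * n + 1) : ℕ) : ℤ)
      (cfg n (2 * n + 1) (blk u h ω i)) (cfg n W ω) (fun j t h0 h1 => by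
        have hle : u + i * (2 * n + 1) + (2 * n + 1) ≤ W := by
          have h1 := Nat.mul_le_mul_right (2 * n + 1) (Nat.succ_le_of_lt i.2)
          rw [Nat.succ_mul] at h1
          omega
        exact cfg_shift n W (2 * n + 1) (u + i * (2 * n + 1)) ω (blk u h ω i) hle
          (fun t => rfl) j t h0 (by push_cast; exact h1)) hi
    rw [zero_add, add_comm (2 * (n : ℤ) + 1)] at h2
    exact h2
  refine h1.trans ?_
  have h2 := hc n hn
  have h3 : pr n (2 * n + 1) A ≤ 1 - c := by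
    rw [hA, pr_not]
    linarith
  refine le_trans ?_ (pow_le_pow_left₀ (pr_nonneg A) h3 m)
  rw [pr_eq, pr_eq, div_pow]
  have h4 := blocks u h (by omega) A
  rw [Fintype.card_fun, Fintype.card_bool, Fintype.card_fin] at h4
  have h4' : ((univ.filter fun c : Fin W → Fin (2 * n + 1) → Bool =>
      ∀ i : Fin m, A (blk u h c i)).card : ℝ) ≤
      ((univ.filter A).card : ℝ) ^ m * ((2 : ℝ) ^ (2 * n + 1)) ^ (W - m * (2 * n + 1)) := by
    refine le_trans (Nat.cast_le.2 h4) (le_of_eq ?_)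
    push_cast
    rfl
  have h5 : (2 : ℝ) ^ ((2 * n + 1) * W) = (2 ^ ((2 * n + 1) * (2 * n + 1))) ^ m *
      (2 ^ (2 * n + 1)) ^ (W - m * (2 * n + 1)) := by
    rw [← pow_mul, ← pow_mul, ← pow_add]
    congr 1
    have h6 : m * (2 * n + 1) ≤ W := by omega
    obtain ⟨k, rfl⟩ := Nat.exists_eq_add_of_le h6
    rw [Nat.add_sub_cancel_left]
    ring
  rw [h5, div_le_div_iff₀ (by positivity) (by positivity)]
  calc _ ≤ ((univ.filter A).card : ℝ) ^ m * ((2 : ℝ) ^ (2 * n + 1)) ^ (W - m * (2 * n + 1)) *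
        (2 ^ ((2 * n + 1) * (2 * n + 1))) ^ m := by
        apply mul_le_mul_of_nonneg_right h4' (by positivity)
    _ = _ := by ring

/-- the probability for given parameters -/
theorem tail_m (hCOMP : S_COMP) (hLOC : S_LOC) (hMONO : S_T1MONO) (hT : S_T1LOC)
    {c C q : ℝ}
    (hc : ∀ n : ℕ, 1 ≤ n →
      c ≤ pr n (2 * n + 1) (fun ω => T1 n (cfg n (2 * n + 1) ω) 0 (2 * n + 1)))
    (hD : ∀ (n M : ℕ) (u v ε : ℤ) (m r : ℕ), 1 ≤ n →
      1 ≤ m → 0 ≤ u → u ≤ v → v ≤ M → v - u ≤ m * (2 * n + 1) →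
      pr n M (fun c => DC (2 * n + 1) u v ε r (cfg n M c)) ≤ C * m * q ^ (r / (C * m) : ℝ))
    (n M M' : ℕ) (x : ℝ) (m r : ℕ) (hn : 1 ≤ n) (hm : 1 ≤ m) (hr : 4 * ((r : ℝ) + 2) ≤ x) :
    pr n (M + M') (fun c => x * (2 * n + 1) ≤
      |(X n (M + M') c : ℝ) - X n M (lft M M' c) - X n M' (rgt M M' c)|) ≤
      2 * (1 - c) ^ m + 2 * (C * ((2 * m : ℕ) : ℝ) * q ^ (r / (C * ((2 * m : ℕ) : ℝ)) : ℝ)) := by
  classical
  have hc0 : 0 ≤ 1 - c := by
    have h1 := hc n hn
    have h2 := pr_le_one (n := n) (M := 2 * n + 1)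
      (fun ω => T1 n (cfg n (2 * n + 1) ω) 0 (2 * n + 1))
    linarith
  obtain ⟨lo, hlo0, hloM, hlom, B1, hB1, hlo⟩ : ∃ lo : ℤ, 0 ≤ lo ∧ lo ≤ M ∧
      (M : ℤ) - lo ≤ m * (2 * n + 1) ∧ ∃ B1 : (Fin (M + M') → Fin (2 * n + 1) → Bool) → Prop,
      pr n (M + M') B1 ≤ (1 - c) ^ m ∧
      ∀ ω, ¬ B1 ω → (lo = 0 ∨ T1 n (cfg n (M + M') ω) lo M) := by
    rcases Nat.lt_or_ge M (m * (2 * n + 1)) with h1 | h1
    · refine ⟨0, le_rfl, by positivity, ?_, fun _ => False, ?_, fun _ _ => Or.inl rfl⟩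
      · have : ((M : ℕ) : ℤ) ≤ ((m * (2 * n + 1) : ℕ) : ℤ) := by exact_mod_cast h1.le
        push_cast at this
        linarith
      · have h2 : pr n (M + M') (fun _ => False) = 0 := by
          rw [pr_eq]
          simp
        rw [h2]
        positivity
    · obtain ⟨u, hu⟩ := Nat.exists_eq_add_of_le' h1
      refine ⟨(u : ℤ), by positivity, by rw [hu]; push_cast; nlinarith, ?_,
        fun ω => ∀ i : Fin m, ¬ T1 n (cfg n (M + M') ω) (((u + i * (2 * n + 1) : ℕ)) : ℤ)
          (((u + i * (2 * n + 1) : ℕ) : ℤ) + (2 * n + 1)), ?_, ?_⟩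
      · rw [hu]; push_cast; linarith
      · exact bad hT hc n (M + M') m u hn (by omega)
      · intro ω hω
        push Not at hω
        obtain ⟨i, hi⟩ := hω
        right
        refine hMONO n _ u _ _ M hn (per_cfg n _ ω) ?_ ?_ ?_ hi
        · push_cast; nlinarith [Nat.zero_le (i : ℕ)]
        · linarith
        · have h2 := Nat.mul_le_mul_right (2 * n + 1) (Nat.succ_le_of_lt i.2)
          rw [Nat.succ_mul] at h2
          have h3 : (u + i * (2 * n + 1) + (2 * n + 1) : ℕ) ≤ M := by omega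
          have h4 : ((u + i * (2 * n + 1) + (2 * n + 1) : ℕ) : ℤ) ≤ M := by exact_mod_cast h3
          push_cast at h4 ⊢
          linarith
  obtain ⟨hi, hhiM, hhiW, hhim, B2, hB2, hhi⟩ : ∃ hi : ℤ, (M : ℤ) ≤ hi ∧ hi ≤ (M + M' : ℕ) ∧
      hi - (M : ℤ) ≤ m * (2 * n + 1) ∧ ∃ B2 : (Fin (M + M') → Fin (2 * n + 1) → Bool) → Prop,
      pr n (M + M') B2 ≤ (1 - c) ^ m ∧
      ∀ ω, ¬ B2 ω → (hi = (M + M' : ℕ) ∨ T1 n (cfg n (M + M') ω) M hi) := by
    rcases Nat.lt_or_ge M' (m * (2 * n + 1)) with h1 | h1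
    · refine ⟨((M + M' : ℕ) : ℤ), by push_cast; linarith [Int.natCast_nonneg M'], le_rfl, ?_,
        fun _ => False, ?_, fun _ _ => Or.inl rfl⟩
      · have : ((M' : ℕ) : ℤ) ≤ ((m * (2 * n + 1) : ℕ) : ℤ) := by exact_mod_cast h1.le
        push_cast at this ⊢
        linarith
      · have h2 : pr n (M + M') (fun _ => False) = 0 := by
          rw [pr_eq]
          simp
        rw [h2]
        positivity
    · refine ⟨((M + m * (2 * n + 1) : ℕ) : ℤ), by push_cast; nlinarith, ?_, ?_,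
        fun ω => ∀ i : Fin m, ¬ T1 n (cfg n (M + M') ω) (((M + i * (2 * n + 1) : ℕ)) : ℤ)
          (((M + i * (2 * n + 1) : ℕ) : ℤ) + (2 * n + 1)), ?_, ?_⟩
      · exact_mod_cast Nat.add_le_add_left h1 M
      · push_cast; linarith
      · exact bad hT hc n (M + M') m M hn (by omega)
      · intro ω hω
        push Not at hω
        obtain ⟨i, hi⟩ := hω
        right
        refine hMONO n _ M _ _ _ hn (per_cfg n _ ω) ?_ ?_ ?_ hi
        · push_cast; nlinarith [Nat.zero_le (i : ℕ)]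
        · linarith
        · have h2 := Nat.mul_le_mul_right (2 * n + 1) (Nat.succ_le_of_lt i.2)
          rw [Nat.succ_mul] at h2
          have h3 : (M + i * (2 * n + 1) + (2 * n + 1) : ℕ) ≤ M + m * (2 * n + 1) := by omega
          have h4 : ((M + i * (2 * n + 1) + (2 * n + 1) : ℕ) : ℤ) ≤
            ((M + m * (2 * n + 1) : ℕ) : ℤ) := by exact_mod_cast h3
          push_cast at h4 ⊢
          linarith
  have hmz : (0 : ℤ) ≤ m * (2 * n + 1) := by positivity
  have hd1 := hD n (M + M') lo hi (0 + 1) (2 * m) r hn (by omega) hlo0 (by linarith) hhiW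
    (by push_cast; linarith)
  have hd2 := hD n (M + M') M hi (M + 1) (2 * m) r hn (by omega) (by positivity) hhiM hhiW
    (by push_cast; linarith)
  have hmain : pr n (M + M') (fun c => x * (2 * n + 1) ≤
      |(X n (M + M') c : ℝ) - X n M (lft M M' c) - X n M' (rgt M M' c)|) ≤
      pr n (M + M') (fun ω => (B1 ω ∨ B2 ω) ∨ (DC (2 * n + 1) lo hi (0 + 1) r (cfg n (M + M') ω) ∨
        DC (2 * n + 1) M hi (M + 1) r (cfg n (M + M') ω))) := by
    apply pr_mono
    intro ω hω
    by_contra hcon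
    rw [not_or, not_or] at hcon
    obtain ⟨⟨hb1, hb2⟩, hdc⟩ := hcon
    apply hdc
    have e1 : X n M (lft M M' ω) = dsp n 0 M (cfg n (M + M') ω) := by
      have h1 := hLOC n 0 M 0 (cfg n M (lft M M' ω)) (cfg n (M + M') ω) hn (by positivity)
        (fun j t h0 h1 => cfg_shift n (M + M') M 0 ω (lft M M' ω) (by omega)
          (fun t => congrArg ω (Fin.ext (by simp))) j t h0 h1)
      rw [add_zero, add_zero] at h1
      exact h1.symm
    have e2 : X n M' (rgt M M' ω) = dsp n M ((M + M' : ℕ) : ℤ) (cfg n (M + M') ω) := by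
      have h1 := hLOC n 0 M' M (cfg n M' (rgt M M' ω)) (cfg n (M + M') ω) hn (by positivity)
        (fun j t h0 h1 => cfg_shift n (M + M') M' M ω (rgt M M' ω) le_rfl
          (fun t => rfl) j t h0 h1)
      rw [zero_add, add_comm (M' : ℤ)] at h1
      push_cast
      exact h1.symm
    have e3 : X n (M + M') ω = dsp n 0 ((M + M' : ℕ) : ℤ) (cfg n (M + M') ω) := rfl
    refine hCOMP n (cfg n (M + M') ω) 0 lo M hi ((M + M' : ℕ) : ℤ) hn (per_cfg n _ ω) hlo0 hloM
      hhiM hhiW (hlo ω hb1) (hhi ω hb2) r ?_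
    rw [e1, e2, e3] at hω
    have hn0 : (0 : ℝ) < 2 * n + 1 := by positivity
    have h5 : 4 * (2 * (n : ℝ) + 1) * (r + 2) ≤ x * (2 * n + 1) := by
      have := mul_le_mul_of_nonneg_right hr hn0.le
      linarith
    have h6 := h5.trans hω
    exact_mod_cast h6
  refine hmain.trans ((pr_or _ _).trans ?_)
  have h7 := pr_or (n := n) (M := M + M') B1 B2
  have h8 := pr_or (n := n) (M := M + M')
    (fun ω => DC (2 * n + 1) lo hi (0 + 1) r (cfg n (M + M') ω))
    (fun ω => DC (2 * n + 1) M hi (M + 1) r (cfg n (M + M') ω))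
  have h9 := add_le_add (h7.trans (add_le_add hB1 hB2)) (h8.trans (add_le_add hd1 hd2))
  refine h9.trans (le_of_eq ?_)
  ring

theorem t_TAIL : S_COMP → S_DCP → S_T1P → S_LOC → S_T1MONO → S_T1LOC → S_TAIL := by
  rintro hCOMP ⟨C, q, hC, hq0, hq1, hD⟩ ⟨c, hc0, hc⟩ hLOC hMONO hT
  have hc1 : c ≤ 1 := (hc 1 le_rfl).trans (pr_le_one _)
  have hlq : Real.log q < 0 := Real.log_neg hq0 hq1
  set κ1 : ℝ := -Real.log q / (64 * C) with hκ1
  have hκ1p : 0 < κ1 := div_pos (by linarith) (by positivity)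
  set κ : ℝ := min c (κ1 / 2) with hκ
  have hκp : 0 < κ := lt_min hc0 (by positivity)
  refine ⟨Real.exp (4 * κ) + (2 + 16 * C / κ1), κ, by positivity, hκp, ?_⟩
  intro n M M' x hn hx
  rcases lt_or_ge x 16 with hx16 | hx16
  · refine (pr_le_one _).trans ?_
    have h1 : √x ≤ 4 := by
      rw [show (4 : ℝ) = √16 by
        rw [show (16 : ℝ) = 4 ^ 2 by norm_num, Real.sqrt_sq (by norm_num)]]
      exact Real.sqrt_le_sqrt hx16.le
    have h2 : 1 ≤ Real.exp (4 * κ) * Real.exp (-κ * √x) := by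
      rw [← Real.exp_add]
      apply Real.one_le_exp
      nlinarith
    have h3 : 0 ≤ (2 + 16 * C / κ1) * Real.exp (-κ * √x) := by positivity
    rw [add_mul]
    linarith
  · have hsx : 4 ≤ √x := by
      rw [show (4 : ℝ) = √16 by
        rw [show (16 : ℝ) = 4 ^ 2 by norm_num, Real.sqrt_sq (by norm_num)]]
      exact Real.sqrt_le_sqrt hx16
    have hxx : √x * √x = x := Real.mul_self_sqrt hx
    set m : ℕ := ⌈√x⌉₊ with hm
    have hm1 : √x ≤ m := Nat.le_ceil _
    have hm2 : (m : ℝ) ≤ 2 * √x := by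
      have := (Nat.ceil_lt_add_one (Real.sqrt_nonneg x)).le
      linarith
    have hm0 : 1 ≤ m := by
      have : (1 : ℝ) ≤ m := by linarith
      exact_mod_cast this
    set k : ℕ := ⌊x / 4⌋₊ with hk
    have hk1 : (k : ℝ) ≤ x / 4 := Nat.floor_le (by positivity)
    have hk2 : x / 4 < k + 1 := Nat.lt_floor_add_one _
    have hk3 : 2 ≤ k := by
      have : (2 : ℝ) < k + 1 := by linarith
      have h2 : (2 : ℕ) < k + 1 := by exact_mod_cast this
      omega
    obtain ⟨r, hr⟩ := Nat.exists_eq_add_of_le' hk3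
    have hr' : (k : ℝ) = r + 2 := by rw [hr]; push_cast; ring
    have hrx : x / 16 ≤ r := by linarith
    have h1 := tail_m hCOMP hLOC hMONO hT hc hD n M M' x m r hn hm0 (by linarith)
    refine h1.trans ?_
    have hmp : (0 : ℝ) < m := by exact_mod_cast hm0
    have h2 : (1 - c) ^ m ≤ Real.exp (-κ * √x) := by
      calc (1 - c) ^ m ≤ (Real.exp (-c)) ^ m := by
            apply pow_le_pow_left₀ (by linarith)
            have := Real.add_one_le_exp (-c)
            linarith
        _ = Real.exp (-c * m) := by rw [← Real.exp_nat_mul]; congr 1; ring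
        _ ≤ Real.exp (-κ * √x) := by
            apply Real.exp_le_exp.2
            have h3 : κ ≤ c := min_le_left _ _
            nlinarith
    have h3 : q ^ (r / (C * ((2 * m : ℕ) : ℝ)) : ℝ) ≤ Real.exp (-κ1 * √x) := by
      rw [Real.rpow_def_of_pos hq0]
      apply Real.exp_le_exp.2
      have h4 : √x / (64 * C) ≤ r / (C * ((2 * m : ℕ) : ℝ)) := by
        rw [div_le_div_iff₀ (by positivity) (by push_cast; positivity)]
        push_cast
        have h5 : √x * (C * (2 * m)) ≤ √x * (C * (2 * (2 * √x))) := by gcongr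
        have h6 : √x * (C * (2 * (2 * √x))) = 4 * C * x := by
          calc _ = 4 * C * (√x * √x) := by ring
            _ = _ := by rw [hxx]
        have h7 : 4 * C * x ≤ r * (64 * C) := by nlinarith
        linarith
      have h5 : Real.log q * (r / (C * ((2 * m : ℕ) : ℝ))) ≤ Real.log q * (√x / (64 * C)) :=
        mul_le_mul_of_nonpos_left h4 hlq.le
      refine h5.trans (le_of_eq ?_)
      rw [hκ1]
      ring
    have h4 : √x * Real.exp (-κ1 * √x) ≤ 2 / κ1 * Real.exp (-κ * √x) := by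
      have h5 : κ1 / 2 * √x ≤ Real.exp (κ1 / 2 * √x) := by
        have := Real.add_one_le_exp (κ1 / 2 * √x)
        linarith
      have h6 : √x ≤ 2 / κ1 * Real.exp (κ1 / 2 * √x) := by
        have h7 : √x = 2 / κ1 * (κ1 / 2 * √x) := by field_simp
        rw [h7]
        have := mul_le_mul_of_nonneg_left h5 (by positivity : 0 ≤ 2 / κ1)
        rw [← h7]
        rw [← h7] at this
        exact this
      calc √x * Real.exp (-κ1 * √x) ≤ (2 / κ1 * Real.exp (κ1 / 2 * √x)) * Real.exp (-κ1 * √x) :=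
            mul_le_mul_of_nonneg_right h6 (by positivity)
        _ = 2 / κ1 * Real.exp (-(κ1 / 2) * √x) := by
            rw [mul_assoc, ← Real.exp_add]
            congr 2
            ring
        _ ≤ 2 / κ1 * Real.exp (-κ * √x) := by
            apply mul_le_mul_of_nonneg_left _ (by positivity)
            apply Real.exp_le_exp.2
            have h3 : κ ≤ κ1 / 2 := min_le_right _ _
            nlinarith [Real.sqrt_nonneg x]
    have h5 : C * ((2 * m : ℕ) : ℝ) * q ^ (r / (C * ((2 * m : ℕ) : ℝ)) : ℝ) ≤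
        8 * C / κ1 * Real.exp (-κ * √x) := by
      calc C * ((2 * m : ℕ) : ℝ) * q ^ (r / (C * ((2 * m : ℕ) : ℝ)) : ℝ)
          ≤ C * (2 * (2 * √x)) * Real.exp (-κ1 * √x) := by
            push_cast at h3 ⊢
            gcongr
        _ = 4 * C * (√x * Real.exp (-κ1 * √x)) := by ring
        _ ≤ 4 * C * (2 / κ1 * Real.exp (-κ * √x)) := by gcongr
        _ = _ := by ring
    have h6 : 0 ≤ Real.exp (4 * κ) * Real.exp (-κ * √x) := by positivity
    have h7 : (Real.exp (4 * κ) + (2 + 16 * C / κ1)) * Real.exp (-κ * √x) =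
        Real.exp (4 * κ) * Real.exp (-κ * √x) + 2 * Real.exp (-κ * √x) +
        2 * (8 * C / κ1 * Real.exp (-κ * √x)) := by ring
    rw [h7]
    linarith

end Pool.Agent.Y941.KW
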